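import Pool.Agent.W646.CI.Stm

set_option autoImplicit false

namespace Pool.Agent.W924.CI

open MeasureTheory Filter Topology Set Pool.Agent.W646.CI

lemma LL_pos (K m : ℕ) : (0 : ℝ) < LL K m := by
  unfold LL
  positivity

lemma mem_cell {K m i l : ℕ} {s : ℂ} : s ∈ cell K m i l ↔
    (((i : ℝ) ≤ (s.re - m) * LL K m ∧ (s.re - m) * LL K m < i + 1) ∧
    ((l : ℝ) ≤ (s.im - 8 * s.re ^ (K - 1) + Real.pi) / (2 * Real.pi) * LL K m ∧
      (s.im - 8 * s.re ^ (K - 1) + Real.pi) / (2 * Real.pi) * LL K m < l + 1)) := by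
  have hL := LL_pos K m
  have hp : (0 : ℝ) < 2 * Real.pi := by positivity
  have e1 : ((m : ℝ) + i / LL K m ≤ s.re) ↔ (i : ℝ) ≤ (s.re - m) * LL K m := by
    rw [← div_le_iff₀ hL]
    constructor <;> intro h <;> linarith
  have e2 : (s.re < (m : ℝ) + (i + 1) / LL K m) ↔ (s.re - m) * LL K m < i + 1 := by
    rw [← lt_div_iff₀ hL]
    constructor <;> intro h <;> linarith
  have e3 : (-Real.pi + 2 * Real.pi * l / LL K m ≤ s.im - 8 * s.re ^ (K - 1)) ↔
      (l : ℝ) ≤ (s.im - 8 * s.re ^ (K - 1) + Real.pi) / (2 * Real.pi) * LL K m := by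
    rw [← div_le_iff₀ hL, le_div_iff₀ hp]
    have : (l : ℝ) / LL K m * (2 * Real.pi) = 2 * Real.pi * l / LL K m := by ring
    rw [this]
    constructor <;> intro h <;> linarith
  have e4 : (s.im - 8 * s.re ^ (K - 1) < -Real.pi + 2 * Real.pi * (l + 1) / LL K m) ↔
      (s.im - 8 * s.re ^ (K - 1) + Real.pi) / (2 * Real.pi) * LL K m < l + 1 := by
    rw [← lt_div_iff₀ hL, div_lt_iff₀ hp]
    have : ((l : ℝ) + 1) / LL K m * (2 * Real.pi) = 2 * Real.pi * (l + 1) / LL K m := by ring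
    rw [this]
    constructor <;> intro h <;> linarith
  rw [cell, mem_setOf_eq, e1, e2, e3, e4, and_assoc]

lemma nat_eq {a b : ℕ} {x : ℝ} (h1 : (a : ℝ) ≤ x) (h2 : x < a + 1) (h3 : (b : ℝ) ≤ x)
    (h4 : x < b + 1) : a = b := by
  have h5 : (a : ℝ) < ((b + 1 : ℕ) : ℝ) := by push_cast; linarith
  have h6 : (b : ℝ) < ((a + 1 : ℕ) : ℝ) := by push_cast; linarith
  rw [Nat.cast_lt] at h5 h6
  omega

lemma cell_re {K m i l : ℕ} (hi : i < LL K m) {s : ℂ} (hs : s ∈ cell K m i l) :
    (m : ℝ) ≤ s.re ∧ s.re < m + 1 := by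
  rw [mem_cell] at hs
  have hL := LL_pos K m
  have hi' : (i : ℝ) + 1 ≤ LL K m := by exact_mod_cast hi
  have h0 : (0 : ℝ) ≤ i := Nat.cast_nonneg i
  constructor
  · by_contra h
    push Not at h
    have : (s.re - m) * LL K m < 0 := mul_neg_of_neg_of_pos (by linarith) hL
    linarith [hs.1.1]
  · by_contra h
    push Not at h
    have : 1 * (LL K m : ℝ) ≤ (s.re - m) * LL K m :=
      mul_le_mul_of_nonneg_right (by linarith) hL.le
    linarith [hs.1.2]

theorem main : S_GEO := by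
  intro K _
  refine ⟨?_, ?_, ?_⟩
  · intro m i l
    have h1 : Measurable fun s : ℂ => s.re := Complex.measurable_re
    have h2 : Measurable fun s : ℂ => s.im - 8 * s.re ^ (K - 1) :=
      Complex.measurable_im.sub ((Complex.measurable_re.pow_const (K - 1)).const_mul 8)
    simp only [cell, setOf_and]
    exact (measurableSet_le measurable_const h1).inter ((measurableSet_lt h1 measurable_const).inter
      ((measurableSet_le measurable_const h2).inter (measurableSet_lt h2 measurable_const)))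
  · intro T0 n _
    ext s
    simp only [mem_iUnion, Finset.mem_Ico, Finset.mem_range, exists_prop]
    have hp : (0 : ℝ) < 2 * Real.pi := by positivity
    constructor
    · rintro ⟨h1, h2, h3, h4⟩
      have h0 : 0 ≤ s.re := (Nat.cast_nonneg T0).trans h1
      have f1 := Nat.floor_le h0
      have f2 := Nat.lt_floor_add_one s.re
      refine ⟨⌊s.re⌋₊, ⟨Nat.le_floor h1, ?_⟩, ?_⟩
      · rw [Nat.floor_lt h0]
        exact h2
      · have hL := LL_pos K ⌊s.re⌋₊
        have g0 : 0 ≤ (s.re - ⌊s.re⌋₊) * LL K ⌊s.re⌋₊ := mul_nonneg (by linarith) hL.le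
        have k0 : 0 ≤ (s.im - 8 * s.re ^ (K - 1) + Real.pi) / (2 * Real.pi) * LL K ⌊s.re⌋₊ :=
          mul_nonneg (div_nonneg (by linarith) hp.le) hL.le
        refine ⟨⌊(s.re - ⌊s.re⌋₊) * LL K ⌊s.re⌋₊⌋₊, ?_,
          ⌊(s.im - 8 * s.re ^ (K - 1) + Real.pi) / (2 * Real.pi) * LL K ⌊s.re⌋₊⌋₊, ?_, ?_⟩
        · rw [Nat.floor_lt g0]
          nlinarith
        · rw [Nat.floor_lt k0]
          have : (s.im - 8 * s.re ^ (K - 1) + Real.pi) / (2 * Real.pi) < 1 := by
            rw [div_lt_one hp]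
            linarith
          nlinarith
        · rw [mem_cell]
          exact ⟨⟨Nat.floor_le g0, Nat.lt_floor_add_one _⟩,
            ⟨Nat.floor_le k0, Nat.lt_floor_add_one _⟩⟩
    · rintro ⟨m, ⟨hm1, hm2⟩, i, hi, l, hl, hs⟩
      obtain ⟨h1, h2⟩ := cell_re hi hs
      rw [mem_cell] at hs
      have hL := LL_pos K m
      have hm1' : (T0 : ℝ) ≤ m := by exact_mod_cast hm1
      have hm2' : (m : ℝ) + 1 ≤ n := by exact_mod_cast hm2
      have hl' : (l : ℝ) + 1 ≤ LL K m := by exact_mod_cast hl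
      have hl0 : (0 : ℝ) ≤ l := Nat.cast_nonneg l
      refine ⟨by linarith, by linarith, ?_, ?_⟩
      · by_contra h
        push Not at h
        have h5 : (s.im - 8 * s.re ^ (K - 1) + Real.pi) / (2 * Real.pi) < 0 :=
          div_neg_of_neg_of_pos (by linarith) hp
        have := mul_neg_of_neg_of_pos h5 hL
        linarith [hs.2.1]
      · by_contra h
        push Not at h
        have h5 : 1 ≤ (s.im - 8 * s.re ^ (K - 1) + Real.pi) / (2 * Real.pi) := by
          rw [le_div_iff₀ hp]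
          linarith
        have := mul_le_mul_of_nonneg_right h5 hL.le
        linarith [hs.2.2]
  · intro m i l m' i' l' hi hl hi' hl' hne
    rw [Set.disjoint_left]
    intro s hs hs'
    apply hne
    obtain ⟨h1, h2⟩ := cell_re hi hs
    obtain ⟨h3, h4⟩ := cell_re hi' hs'
    have hm : m = m' := nat_eq h1 h2 h3 h4
    subst hm
    rw [mem_cell] at hs hs'
    have e1 : i = i' := nat_eq hs.1.1 hs.1.2 hs'.1.1 hs'.1.2
    have e2 : l = l' := nat_eq hs.2.1 hs.2.2 hs'.2.1 hs'.2.2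
    rw [e1, e2]

end Pool.Agent.W924.CI
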